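import Pool.Agent.helper54.V3.SpecT
import Pool.Agent.helper98.ILF.Density

/-! # v3:KO0. The derivative of an injective holomorphic function does not vanish
(the local statement is a copy of `MPS.EVT_deriv`, Pool/Agent/helper98/MP/EVT.lean) -/

set_option autoImplicit false

open Complex Metric Set Filter Topology MeasureTheory

noncomputable section

namespace V3

theorem KO0_deriv {f : ℂ → ℂ} {z₀ : ℂ} {r : ℝ} (hr : 0 < r) (hd : DifferentiableOn ℂ f (ball z₀ r))
    (hi : InjOn f (ball z₀ r)) : deriv f z₀ ≠ 0 := by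
  have hf : AnalyticAt ℂ f z₀ :=
    hd.analyticAt (isOpen_ball.mem_nhds (mem_ball_self hr))
  have han : AnalyticAt ℂ (fun z => f z - f z₀) z₀ := hf.sub analyticAt_const
  have hball : ball z₀ r ∈ 𝓝 z₀ := ball_mem_nhds _ hr
  have htop : analyticOrderAt (fun z => f z - f z₀) z₀ ≠ ⊤ := by
    intro h
    rw [analyticOrderAt_eq_top] at h
    have h1 : ∀ᶠ z in 𝓝[≠] z₀, f z - f z₀ = 0 ∧ z ∈ ball z₀ r ∧ z ≠ z₀ :=
      (h.filter_mono nhdsWithin_le_nhds).and
        ((Filter.Eventually.filter_mono nhdsWithin_le_nhds hball).and self_mem_nhdsWithin)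
    obtain ⟨z, hz1, hz2, hz3⟩ := h1.exists
    exact hz3 (hi hz2 (mem_ball_self hr) (sub_eq_zero.1 hz1))
  obtain ⟨m, hm⟩ := ENat.ne_top_iff_exists.1 htop
  obtain ⟨g, hg, hg0, hfg⟩ := han.analyticOrderAt_eq_natCast.1 hm.symm
  have hm0 : m ≠ 0 := by
    rintro rfl
    have h1 := hfg.self_of_nhds
    rw [sub_self, pow_zero, one_smul] at h1
    exact hg0 h1.symm
  by_cases hm1 : m = 1
  · subst hm1
    have h1 : HasDerivAt (fun z => (z - z₀) ^ 1 • g z) (g z₀) z₀ := by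
      have h2 : HasDerivAt (fun z => (z - z₀) * g z) (1 * g z₀ + (z₀ - z₀) * deriv g z₀) z₀ :=
        ((hasDerivAt_id z₀).sub_const z₀).mul hg.differentiableAt.hasDerivAt
      rw [sub_self, zero_mul, add_zero, one_mul] at h2
      refine h2.congr_of_eventuallyEq (Filter.Eventually.of_forall fun z => ?_)
      simp
    have h3 : HasDerivAt (fun z => f z - f z₀) (g z₀) z₀ := h1.congr_of_eventuallyEq hfg
    have h4 : HasDerivAt f (g z₀) z₀ := by
      have h5 := h3.add_const (f z₀)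
      simpa using h5
    rw [h4.deriv]
    exact hg0
  · exfalso
    have hgd : ∀ᶠ z in 𝓝 z₀, DifferentiableAt ℂ g z ∧ g z ≠ 0 ∧
        f z - f z₀ = (z - z₀) ^ m • g z ∧ z ∈ ball z₀ r :=
      (hg.eventually_analyticAt.mono fun z hz => hz.differentiableAt).and
        ((hg.continuousAt.eventually_ne hg0).and (hfg.and hball))
    obtain ⟨ρ, hρ, hρ'⟩ := Metric.eventually_nhds_iff_ball.1 hgd
    obtain ⟨u, hu⟩ : ∃ u : ℂ, u ^ m = g z₀ := ⟨(g z₀) ^ ((m : ℂ)⁻¹), Complex.cpow_nat_inv_pow _ hm0⟩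
    obtain ⟨g₁, hg1d, hg1u, hg1⟩ := Pool.Agent.helper98.ILF.exists_lift_pow (n := m) hm0
      (w := z₀) (u := u) (ρ := ρ) (h := g) hρ
      (fun z hz => (hρ' z hz).1.differentiableWithinAt) (fun z hz => (hρ' z hz).2.1) hu
    have hu0 : u ≠ 0 := by
      rintro rfl
      rw [zero_pow hm0] at hu
      exact hg0 hu.symm
    have hFan : AnalyticAt ℂ (fun z => (z - z₀) * g₁ z) z₀ :=
      (analyticAt_id.sub analyticAt_const).mul
        (hg1d.analyticAt (isOpen_ball.mem_nhds (mem_ball_self hρ)))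
    have hFd : deriv (fun z => (z - z₀) * g₁ z) z₀ = u := by
      have h2 : HasDerivAt (fun z => (z - z₀) * g₁ z) (1 * g₁ z₀ + (z₀ - z₀) * deriv g₁ z₀) z₀ :=
        ((hasDerivAt_id z₀).sub_const z₀).mul
          (hg1d.differentiableAt (isOpen_ball.mem_nhds (mem_ball_self hρ))).hasDerivAt
      rw [h2.deriv, hg1u]
      ring
    have hmap := hFan.hasStrictDerivAt.map_nhds_eq (by rw [hFd]; exact hu0)
    have himg : (fun z => (z - z₀) * g₁ z) '' ball z₀ ρ ∈ 𝓝 (0 : ℂ) := by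
      have h1 := Filter.image_mem_map (m := fun z => (z - z₀) * g₁ z) (ball_mem_nhds z₀ hρ)
      rw [hmap] at h1
      simpa using h1
    obtain ⟨ε, hε, hε'⟩ := Metric.mem_nhds_iff.1 himg
    have hprim := Complex.isPrimitiveRoot_exp m hm0
    set ω := Complex.exp (2 * Real.pi * Complex.I / m) with hω
    have hωn : ‖ω‖ = 1 := hprim.norm'_eq_one hm0
    have ht : ((ε / 2 : ℝ) : ℂ) ∈ ball (0 : ℂ) ε := by
      rw [mem_ball_zero_iff, Complex.norm_real, Real.norm_of_nonneg (by linarith)]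
      linarith
    have ht' : ω * ((ε / 2 : ℝ) : ℂ) ∈ ball (0 : ℂ) ε := by
      rw [mem_ball_zero_iff, norm_mul, hωn, one_mul, Complex.norm_real,
        Real.norm_of_nonneg (by linarith)]
      linarith
    obtain ⟨a, ha, hFa⟩ := hε' ht
    obtain ⟨b, hb, hFb⟩ := hε' ht'
    have hFa' : (a - z₀) * g₁ a = ((ε / 2 : ℝ) : ℂ) := hFa
    have hFb' : (b - z₀) * g₁ b = ω * ((ε / 2 : ℝ) : ℂ) := hFb
    have e1 : f a - f z₀ = ((ε / 2 : ℝ) : ℂ) ^ m := by
      rw [(hρ' a ha).2.2.1, ← hg1 a ha, smul_eq_mul, ← mul_pow, hFa']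
    have e2 : f b - f z₀ = ((ε / 2 : ℝ) : ℂ) ^ m := by
      rw [(hρ' b hb).2.2.1, ← hg1 b hb, smul_eq_mul, ← mul_pow, hFb', mul_pow, hprim.pow_eq_one,
        one_mul]
    have hab : a = b := hi (hρ' a ha).2.2.2 (hρ' b hb).2.2.2 (by
      have h1 := e1.trans e2.symm
      linear_combination h1)
    rw [hab] at hFa'
    have h3 : ω * ((ε / 2 : ℝ) : ℂ) = 1 * ((ε / 2 : ℝ) : ℂ) := by
      rw [one_mul]
      exact hFb'.symm.trans hFa'
    have h4 : ((ε / 2 : ℝ) : ℂ) ≠ 0 := by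
      have : ε / 2 ≠ 0 := by positivity
      exact_mod_cast this
    have h5 : ω = 1 := mul_right_cancel₀ h4 h3
    have h6 := hprim.eq_orderOf
    rw [h5, orderOf_one] at h6
    exact hm1 h6

theorem KO0 : KO0_stmt := by
  intro G Ω hΩ hG hinj a ha
  obtain ⟨r, hr, hr'⟩ := Metric.isOpen_iff.1 hΩ a ha
  exact KO0_deriv hr (hG.mono hr') (hinj.mono hr')

end V3
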