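import Pool.Agent.helper36.V3.SpecW

/-!
# Project v3 (MP_af9036_an), module FAQ: the derivatives of the multiplier
(adaptation of `PPS.FA`, Pool/Agent/helper28/PP/FA.lean)
-/

set_option autoImplicit false

open Complex Metric Set Filter Topology MeasureTheory MPS Pool.Agent.helper98.ILF Pool.Agent.helper16.Multibrot

noncomputable section

namespace V3W

theorem FAQ_eval (f : Polynomial ℂ) (m : ℕ) (t w : ℂ) :
    (f + Polynomial.C t * Polynomial.X ^ m).eval w = f.eval w + t * w ^ m := by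
  simp

theorem FAQ_diff (f : Polynomial ℂ) (m : ℕ) (Z : ℂ → ℂ) (U : Set ℂ) (hZ : DifferentiableOn ℂ Z U)
    (j : ℕ) : DifferentiableOn ℂ
      (fun t => (fun w : ℂ => (f + Polynomial.C t * Polynomial.X ^ m).eval w)^[j] (Z t)) U := by
  induction j with
  | zero => simpa using hZ
  | succ j ih =>
    have h1 : (fun t => (fun w : ℂ => (f + Polynomial.C t * Polynomial.X ^ m).eval w)^[j + 1] (Z t)) =
        fun t => f.eval ((fun w : ℂ => (f + Polynomial.C t * Polynomial.X ^ m).eval w)^[j] (Z t)) +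
          t * ((fun w : ℂ => (f + Polynomial.C t * Polynomial.X ^ m).eval w)^[j] (Z t)) ^ m := by
      funext t
      rw [Function.iterate_succ_apply']
      exact FAQ_eval f m t _
    rw [h1]
    exact (f.differentiable.comp_differentiableOn ih).add (differentiableOn_id.mul (ih.pow m))

theorem FAQ (hTHQ : THQ_stmt) (hZCY : PPS.ZCY_stmt) (hTG : PPS.TG_stmt) (hZLP : PPS.ZLP_stmt) :
    FAQ_stmt := by
  intro n a K hn ha hK
  obtain ⟨ε, hε, hT⟩ := hTHQ n a K hn ha hK
  refine ⟨ε, hε, ?_⟩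
  intro f k z r Z hBd hcyc h1 hlog hr hZ
  have hk : 0 < k := hcyc.1
  have : NeZero k := ⟨hk.ne'⟩
  obtain ⟨b₀, hb1, hb2, hb3, hb4, hb5, hb6⟩ := hZCY f k z hcyc
  have hm0 : PPS.mlt f k z ≠ 0 := by
    intro h4
    rw [h4, norm_zero] at h1
    linarith
  have hIC : PPS.IsCyc f b₀ := hb6 hm0
  have hρ1 : PPS.rho f b₀ ≠ 1 := by
    intro h4
    rw [← hb5, h4, norm_one] at h1
    exact lt_irrefl _ h1
  obtain ⟨g, hg, -⟩ := hTG n k f b₀ hn hBd.1 hIC hρ1
  have h2 := hT k f b₀ g hBd hIC (by rw [hb5]; exact h1) (by rw [hb5]; exact hlog) hg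
  have key : ∀ m ∈ Finset.range (n - 1), ‖PPS.lam f b₀ g m‖ =
      ‖deriv (fun t => PPS.mlt (f + Polynomial.C t * Polynomial.X ^ m) k (Z m t)) 0 /
        PPS.mlt f k z‖ := by
    intro m hm
    obtain ⟨hZd, hZ0, hZc⟩ := hZ m (Finset.mem_range.1 hm)
    set b : ℂ → ZMod k → ℂ := fun t i =>
      (fun w : ℂ => (f + Polynomial.C t * Polynomial.X ^ m).eval w)^[i.val] (Z m t) with hb
    have hall : ∀ t ∈ ball (0 : ℂ) r,
        (∀ i, (f + Polynomial.C t * Polynomial.X ^ m).eval (b t i) = b t (i + 1)) ∧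
        PPS.rho (f + Polynomial.C t * Polynomial.X ^ m) (b t) =
          PPS.mlt (f + Polynomial.C t * Polynomial.X ^ m) k (Z m t) := by
      intro t ht
      obtain ⟨b', -, c2, -, c4, c5, -⟩ := hZCY _ k (Z m t) (hZc t ht)
      have hbb : b' = b t := by
        funext i
        have h4 := c4 i.val
        rw [ZMod.natCast_zmod_val] at h4
        exact h4
      rw [← hbb]
      exact ⟨c2, c5⟩
    have hb0 : b 0 = b₀ := by
      funext i
      have h4 := hb4 i.val
      rw [ZMod.natCast_zmod_val] at h4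
      rw [h4]
      show (fun w : ℂ => (f + Polynomial.C 0 * Polynomial.X ^ m).eval w)^[i.val] (Z m 0) = _
      rw [hZ0, Polynomial.C_0, zero_mul, add_zero]
    have h3 := (hZLP k f (Polynomial.X ^ m) r b g hr (fun i => FAQ_diff f m (Z m) _ hZd i.val)
      (fun t ht => (hall t ht).1) (by rw [hb0]; exact hIC.ne0) (by rw [hb0]; exact hg)).2
    have hev : (fun t => PPS.rho (f + Polynomial.C t * Polynomial.X ^ m) (b t)) =ᶠ[𝓝 0]
        fun t => PPS.mlt (f + Polynomial.C t * Polynomial.X ^ m) k (Z m t) := by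
      filter_upwards [isOpen_ball.mem_nhds (mem_ball_self hr)] with t ht
      exact (hall t ht).2
    rw [hev.deriv_eq, hb0, hb5] at h3
    rw [h3]
    congr 1
    unfold PPS.lam
    apply Finset.sum_congr rfl
    intro i _
    rw [Polynomial.derivative_X_pow]
    simp
  rw [Finset.sum_congr rfl key, hb5] at h2
  exact h2

end V3W
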