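import Pool.Agent.helper54.V3.SpecG

/-!
# Project v3 (MP_af9036_an), module GTH: the direction of the logarithms of the multipliers
-/

set_option autoImplicit false

open Complex Metric Set Filter Topology MeasureTheory MPS V3

noncomputable section

namespace V3S

theorem GTH : GTH_stmt := by
  intro n ra Cf D hS
  have h1 : ∀ m, ‖(D m).lam / ((‖(D m).lam‖ : ℝ) : ℂ)‖ = 1 := by
    intro m
    have h2 := (hS.good m).lam0
    have h3 : (D m).lam ≠ 0 := by
      intro h4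
      rw [h4] at h2
      simp at h2
    have h5 : ‖(D m).lam‖ ≠ 0 := norm_ne_zero_iff.mpr h3
    rw [norm_div, Complex.norm_real, norm_norm, div_self h5]
  have h2 : ((hyperfilter ℕ : Ultrafilter ℕ).map
      (fun m => (D m).lam / ((‖(D m).lam‖ : ℝ) : ℂ)) : Filter ℂ) ≤ 𝓟 (sphere (0 : ℂ) 1) := by
    rw [Filter.le_principal_iff]
    change (fun m => (D m).lam / ((‖(D m).lam‖ : ℝ) : ℂ)) ⁻¹' (sphere (0 : ℂ) 1) ∈
      ((hyperfilter ℕ : Ultrafilter ℕ) : Filter ℕ)
    refine Filter.mem_of_superset Filter.univ_mem ?_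
    intro m _
    change (D m).lam / ((‖(D m).lam‖ : ℝ) : ℂ) ∈ sphere (0 : ℂ) 1
    rw [mem_sphere_zero_iff_norm]
    exact h1 m
  obtain ⟨θ, hθ, hθ'⟩ := (isCompact_sphere (0 : ℂ) 1).ultrafilter_le_nhds _ h2
  refine ⟨θ, mem_sphere_zero_iff_norm.mp hθ, ?_⟩
  exact hθ'

end V3S
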